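import Pool.Agent.L5helper54.DC.Sc
import Pool.Agent.L5lead.NC.Defs

/-!
# Expansion of subpermanents along rows and columns, transposition
-/

namespace L5lead.NC

open Finset MvPolynomial L5helper59.DC

set_option linter.unusedSectionVars false

section

variable {α β : Type*} [Fintype β] [DecidableEq α] [DecidableEq β] {R : Type*} [CommRing R]

theorem pm_empty (N : α → β → R) (T : Finset β) : pm N ∅ T = if T = ∅ then 1 else 0 := by
  unfold pm
  rw [prod_empty]
  exact L5helper54.DC.sc_one T

/-- G0: expansion along a row -/
theorem pm_insert (N : α → β → R) (S : Finset α) (T : Finset β)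
    (a : α) (ha : a ∉ S) :
    pm N (insert a S) T = ∑ c ∈ T, N a c * pm N S (T.erase c) := by
  unfold pm
  rw [prod_insert ha]
  exact L5helper54.DC.sc_lin_mul (N a) _ T

/-- expansion along a column -/
theorem pm_insert_col (N : α → β → R) (S : Finset α) (T : Finset β)
    (b : β) (hb : b ∉ T) :
    pm N S (insert b T) = ∑ c ∈ S, N c b * pm N (S.erase c) T := by
  induction S using Finset.induction_on generalizing T with
  | empty =>
    rw [sum_empty, pm_empty, if_neg (insert_ne_empty b T)]
  | insert a S ha ih =>
    rw [pm_insert N S _ a ha, sum_insert hb, erase_insert hb, sum_insert ha, erase_insert ha]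
    congr 1
    have h1 : ∀ c ∈ T, N a c * pm N S ((insert b T).erase c) =
        ∑ u ∈ S, N a c * (N u b * pm N (S.erase u) (T.erase c)) := by
      intro c hc
      have hcb : b ≠ c := fun h => hb (h ▸ hc)
      rw [erase_insert_of_ne hcb, ih (T.erase c) (fun h => hb (mem_of_mem_erase h)), mul_sum]
    have h2 : ∀ u ∈ S, N u b * pm N ((insert a S).erase u) T =
        ∑ c ∈ T, N a c * (N u b * pm N (S.erase u) (T.erase c)) := by
      intro u hu
      have hua : a ≠ u := fun h => ha (h ▸ hu)
      rw [erase_insert_of_ne hua, pm_insert N (S.erase u) T a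
        (fun h => ha (mem_of_mem_erase h)), mul_sum]
      exact sum_congr rfl fun c _ => by ring
    rw [sum_congr rfl h1, sum_congr rfl h2, sum_comm]

/-- subpermanents of different sizes are zero -/
theorem pm_eq_zero_of_card (N : α → β → R) (S : Finset α) (T : Finset β) (h : S.card ≠ T.card) :
    pm N S T = 0 := by
  induction S using Finset.induction_on generalizing T with
  | empty =>
    rw [pm_empty, if_neg]
    rintro rfl
    exact h rfl
  | insert a S ha ih =>
    rw [pm_insert N S _ a ha]
    refine sum_eq_zero fun c hc => ?_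
    rw [ih, mul_zero]
    rw [card_erase_of_mem hc]
    rw [card_insert_of_notMem ha] at h
    have := card_pos.mpr ⟨c, hc⟩
    omega

/-- a zero column -/
theorem pm_eq_zero_of_col (N : α → β → R) (S : Finset α) (T : Finset β) (b : β) (hb : b ∈ T)
    (h : ∀ a ∈ S, N a b = 0) : pm N S T = 0 := by
  rw [← insert_erase hb, pm_insert_col N S _ b (notMem_erase b T)]
  exact sum_eq_zero fun c hc => by rw [h c hc, zero_mul]

/-- a zero row -/
theorem pm_eq_zero_of_row (N : α → β → R) (S : Finset α) (T : Finset β) (a : α) (ha : a ∈ S)
    (h : ∀ b ∈ T, N a b = 0) : pm N S T = 0 := by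
  rw [← insert_erase ha, pm_insert N _ T a (notMem_erase a S)]
  exact sum_eq_zero fun c hc => by rw [h c hc, zero_mul]

/-- dependence on the entries -/
theorem pm_congr (N N' : α → β → R) (S : Finset α) (T : Finset β)
    (h : ∀ a ∈ S, ∀ b ∈ T, N a b = N' a b) : pm N S T = pm N' S T := by
  induction S using Finset.induction_on generalizing T with
  | empty => rw [pm_empty, pm_empty]
  | insert a S ha ih =>
    rw [pm_insert N S _ a ha, pm_insert N' S _ a ha]
    refine sum_congr rfl fun c hc => ?_
    rw [h a (mem_insert_self a S) c hc, ih (T.erase c) fun a' ha' b' hb' =>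
      h a' (mem_insert_of_mem ha') b' (mem_of_mem_erase hb')]

end

section

variable {α β : Type*} [Fintype α] [Fintype β] [DecidableEq α] [DecidableEq β]
  {R : Type*} [CommRing R]

/-- G1: transposition -/
theorem pm_transpose (N : α → β → R) (S : Finset α) (T : Finset β) :
    pm N S T = pm (fun b a => N a b) T S := by
  induction S using Finset.induction_on generalizing T with
  | empty =>
    rw [pm_empty]
    by_cases hT : T = ∅
    · rw [if_pos hT, hT, pm_empty, if_pos rfl]
    · obtain ⟨t, ht⟩ := nonempty_iff_ne_empty.mpr hT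
      rw [if_neg hT, ← insert_erase ht, pm_insert _ _ _ t (notMem_erase t T), sum_empty]
  | insert a S ha ih =>
    rw [pm_insert N S T a ha, pm_insert_col (fun b a => N a b) T S a ha]
    exact sum_congr rfl fun c _ => by rw [ih]

end

section

variable {α β α' β' : Type*} [Fintype β] [DecidableEq α] [DecidableEq β] [Fintype β']
  [DecidableEq α'] [DecidableEq β'] {R : Type*} [CommRing R]

/-- reindexing by embeddings -/
theorem pm_map (N : α → β → R) (f : α' ↪ α) (g : β' ↪ β) (S : Finset α') (T : Finset β') :
    pm N (S.map f) (T.map g) = pm (fun a b => N (f a) (g b)) S T := by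
  induction S using Finset.induction_on generalizing T with
  | empty => simp only [map_empty, pm_empty, map_eq_empty]
  | insert a S ha ih =>
    rw [map_insert, pm_insert N _ _ (f a) (fun h => ha ((mem_map' f).mp h)),
      pm_insert _ S T a ha, sum_map]
    refine sum_congr rfl fun c _ => ?_
    rw [← ih (T.erase c)]
    congr 2
    ext x
    simp only [mem_erase, mem_map]
    constructor
    · rintro ⟨h1, y, hy, rfl⟩
      exact ⟨y, ⟨fun h => h1 (h ▸ rfl), hy⟩, rfl⟩
    · rintro ⟨y, ⟨h1, hy⟩, rfl⟩
      exact ⟨fun h => h1 (g.injective h), y, hy, rfl⟩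

end

section

variable {ι : Type} {α β : Type} [Fintype α] [Fintype β] [DecidableEq α] [DecidableEq β]

theorem Rep.transpose {p : ℕ} {w : Finset α → Finset β → MvPolynomial ι ℂ}
    (h : Rep α β p w) : Rep β α p (fun T S => w S T) := by
  obtain ⟨P, Q, iP, iQ, dP, dQ, hP, hQ, N, hN, hw⟩ := h
  exact ⟨Q, P, iQ, iP, dQ, dP, hQ, hP, fun y x => N x y, fun x y => hN y x, fun S T => by
    show _ = w T S
    rw [← hw T S, pm_transpose]⟩

end

end L5lead.NC
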